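import Pool.Agent.H343.AN.StC

set_option autoImplicit false
set_option linter.unusedSectionVars false
set_option linter.unusedVariables false

/-! # MP_aa4716_al, C4 : small pieces of spheres of the quotient -/

namespace Pool.Agent.H399.AN

open Pool.Agent.TH68 Pool.Agent.Helper97.Hyp Pool.Agent.H343.AN

section

variable {Γ : Type} [Group Γ] {W : WNorm Γ} {𝒜 : Type} [MulAction Γ 𝒜]

/-- passing through the projection of an intermediate point -/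
lemma mid (TB : ToolB) (Y : Sys Γ W 𝒜) (B : 𝒜) (c : Pt W → ℝ)
    (hc : ∀ w w', |pd (Y.S B) w w' - (|c w - c w'|)| ≤ Y.θ) {w P Q e : Pt W}
    (he : IsProj Y.θ (Y.S B) P e) (h1 : c w + 10 * Y.θ ≤ c P) (h2 : c P ≤ c Q) :
    dist w e + dist e Q ≤ dist w Q + 10 * Y.θ ∧ dist w e + dist e P ≤ dist w P + 6 * Y.θ := by
  have hδ := Y.hδ
  have hθ := Y.hθ
  obtain ⟨w', hw'⟩ := Y.proj B w
  obtain ⟨q, hq⟩ := Y.proj B Q
  have c1 := abs_le.1 (hc w P)
  have c2 := abs_le.1 (hc w Q)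
  have c3 := abs_le.1 (hc P Q)
  rw [abs_of_nonpos (show c w - c P ≤ 0 by linarith)] at c1
  rw [abs_of_nonpos (show c w - c Q ≤ 0 by linarith)] at c2
  rw [abs_of_nonpos (show c P - c Q ≤ 0 by linarith)] at c3
  have n1 := (TB.near Y B hw' he (by linarith [c1.1])).1
  have n2 := (TB.near Y B hw' hq (by linarith [c2.1])).1
  have p1 := le_pd_of_proj hw' he
  have p2 := le_pd_of_proj he hq
  have t1 := dist_triangle w w' e
  have t2 := dist_triangle e q Q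
  rw [dist_comm q Q] at t2
  rw [dist_comm P e] at n1
  constructor
  · linarith [c1.1, c1.2, c2.1, c2.2, c3.1, c3.2]
  · linarith

/-- the comparison of two minimal base points -/
lemma cmp (TB : ToolB) (Y : Sys Γ W 𝒜) (B : 𝒜) (c : Pt W → ℝ)
    (hc : ∀ w w', |pd (Y.S B) w w' - (|c w - c w'|)| ≤ Y.θ) {P Q X Z : Pt W} {b : ℝ}
    (hPX : dist P X = b) (hQZ : dist Q Z = b) (hPZ : b ≤ dist P Z)
    (h1 : c X + 10 * Y.θ ≤ c P) (h2 : c X + 10 * Y.θ ≤ c Q)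
    (h3 : c Z + 10 * Y.θ ≤ c P) (h4 : c Z + 10 * Y.θ ≤ c Q) : dist Q X ≤ b + 16 * Y.θ := by
  rcases le_total (c P) (c Q) with h | h
  · obtain ⟨e, he⟩ := Y.proj B P
    have m1 := mid TB Y B c hc he h1 h
    have m2 := mid TB Y B c hc he h3 h
    have t1 := dist_triangle Z e P
    have t2 := dist_triangle X e Q
    rw [dist_comm Z Q] at m2
    rw [dist_comm Z P] at t1
    rw [dist_comm X Q] at t2
    rw [dist_comm X P] at m1
    linarith [m1.1, m1.2, m2.1, m2.2]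
  · obtain ⟨e, he⟩ := Y.proj B Q
    have m1 := mid TB Y B c hc he h2 h
    have m2 := mid TB Y B c hc he h4 h
    have t1 := dist_triangle Z e P
    have t2 := dist_triangle X e Q
    rw [dist_comm Z Q] at m2
    rw [dist_comm Z P] at t1
    rw [dist_comm X Q] at t2
    rw [dist_comm X P] at m1
    linarith [m1.1, m1.2, m2.1, m2.2]

/-- the data of a point far from the base point -/
lemma data (TB : ToolB) (Y : Sys Γ W 𝒜) (R : Circ Y) (hρ : 10 ^ 6 * Y.θ ≤ R.ρ) {b D₀ : ℝ}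
    {o u₀ X : Pt W} {m : Γ} (hD : D₀ ≤ R.ρ / 1000) (hu : Red R.N o u₀)
    (hm : m ∈ R.N) (hX : Red R.N (m • o) X) (hb : dist (m • o) X = b) (hd : dist u₀ X ≤ D₀)
    (hfar : b + 20 * Y.θ < dist o X) :
    ∃ B, R.ρ - 51 * Y.θ ≤ pd (Y.S B) o (m • o) ∧ pd (Y.S B) o u₀ ≤ R.ρ / 2 + 6 * Y.θ ∧
      R.ρ / 2 - 57 * Y.θ - D₀ ≤ pd (Y.S B) o u₀ ∧
      pd (Y.S B) u₀ (m • o) ≤ R.ρ / 2 + D₀ + 6 * Y.θ ∧
      ∀ a, IsProj Y.θ (Y.S B) u₀ a → dist u₀ a ≤ D₀ + 5 * Y.θ := by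
  have hδ := Y.hδ
  have hθ := Y.hθ
  have hm1 : m ≠ 1 := by
    rintro rfl
    rw [one_smul] at hb
    linarith
  obtain ⟨B, r, hr, hr1, -, hw⟩ := TB.wind Y R hm hm1 o
  have hne := Y.Sne B
  have b1 := TB.redpd Y R hρ B le_rfl (Redu.of_red hu le_rfl)
  have b2 := TB.redpd Y R hρ B le_rfl (Redu.of_red hX le_rfl)
  have b3 : pd (Y.S B) u₀ X ≤ D₀ := (pd_le_dist hne u₀ X).trans hd
  have t1 := pd_tri hne o u₀ (m • o)
  have t2 := pd_tri hne u₀ X (m • o)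
  rw [pd_symm hne X] at t2
  have e1 : R.ρ / 2 - 57 * Y.θ - D₀ ≤ pd (Y.S B) o u₀ := by linarith
  have e2 : R.ρ / 2 - 57 * Y.θ - D₀ ≤ pd (Y.S B) (m • o) X := by linarith
  refine ⟨B, hw, by linarith, e1, by linarith, ?_⟩
  intro a ha
  by_contra hcon
  push Not at hcon
  obtain ⟨a', ha'⟩ := Y.proj B X
  obtain ⟨q, hq⟩ := Y.proj B o
  obtain ⟨q', hq'⟩ := Y.proj B (m • o)
  have s1 : pd (Y.S B) u₀ X ≤ 3 * Y.θ := by
    by_contra h
    push Not at h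
    have := (TB.near Y B ha ha' h).1
    have := dist_nonneg (x := X) (y := a')
    linarith
  have s2 := le_pd_of_proj ha ha'
  have n1 := (TB.near Y B hq ha (by linarith)).2.2
  have n2 := (TB.near Y B hq' ha' (by linarith)).2.2
  have s3 : dist o u₀ ≤ dist (m • o) u₀ := by
    have h := hu m⁻¹ (R.N.inv_mem hm)
    rw [← dist_smul m o (m⁻¹ • u₀), smul_inv_smul] at h
    exact h
  have s4 := dist_triangle4 (m • o) a' a u₀
  have s5 := dist_triangle4 o a a' X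
  rw [dist_comm a' a] at s4
  unfold exc at n1 n2
  linarith

/-- the axes agree -/
lemma same (TB : ToolB) (Y : Sys Γ W 𝒜) (R : Circ Y) (hρ : 10 ^ 6 * Y.θ ≤ R.ρ) {D₀ : ℝ}
    {o u₀ : Pt W} (hD : D₀ ≤ R.ρ / 1000) {A B : 𝒜}
    (h1 : R.ρ / 2 - 57 * Y.θ - D₀ ≤ pd (Y.S A) o u₀)
    (h2 : R.ρ / 2 - 57 * Y.θ - D₀ ≤ pd (Y.S B) o u₀)
    (h3 : ∀ a, IsProj Y.θ (Y.S A) u₀ a → dist u₀ a ≤ D₀ + 5 * Y.θ)
    (h4 : ∀ a, IsProj Y.θ (Y.S B) u₀ a → dist u₀ a ≤ D₀ + 5 * Y.θ) : A = B := by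
  have hδ := Y.hδ
  have hθ := Y.hθ
  by_contra hne
  rw [pd_symm (Y.Sne A)] at h1
  rw [pd_symm (Y.Sne B)] at h2
  obtain ⟨a, ha⟩ := Y.proj A u₀
  obtain ⟨b, hb⟩ := Y.proj B u₀
  have h5 := h3 a ha
  have h6 := h4 b hb
  have d1 := dist_nonneg (x := u₀) (y := a)
  have d2 := dist_nonneg (x := u₀) (y := b)
  rcases TB.order Y hne u₀ o (by linarith) (by linarith) with h | h
  · have := TB.odist Y (by linarith) (h a ha.1 b hb.1).2 ha
    linarith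
  · have := TB.odist Y (by linarith) (h a ha.1 b hb.1).2 hb
    linarith

/-- the coordinates of the other base points -/
lemma side {ρ θ D₀ c1 c0 cP cX : ℝ} (hθ : 1 ≤ θ) (hρ : 10 ^ 6 * θ ≤ ρ) (hD : D₀ ≤ ρ / 1000)
    (hc : c1 ≤ c0) (h1 : |c1 - c0| ≤ ρ / 2 + 7 * θ) (h2 : ρ / 2 - 58 * θ - D₀ ≤ |c1 - c0|)
    (h3 : ρ - 52 * θ ≤ |c1 - cP|) (h4 : |c0 - cP| ≤ ρ / 2 + D₀ + 7 * θ)
    (h5 : |c0 - cX| ≤ D₀ + θ) : cX + 10 * θ ≤ cP := by
  rw [abs_of_nonpos (by linarith)] at h1 h2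
  have h4' := abs_le.1 h4
  have h5' := abs_le.1 h5
  rcases le_abs.1 h3 with h | h
  · exfalso
    linarith [h4'.1, h4'.2]
  · linarith [h5'.1, h5'.2]

lemma crd_use {pd' x θ t : ℝ} (h : |pd' - x| ≤ θ) : (pd' ≤ t → x ≤ t + θ) ∧
    (t ≤ pd' → t - θ ≤ x) := by
  have := abs_le.1 h
  constructor <;> intro h1 <;> linarith [this.1, this.2]

/-- the main estimate -/
lemma main (TB : ToolB) (Y : Sys Γ W 𝒜) (R : Circ Y) (hρ : 10 ^ 6 * Y.θ ≤ R.ρ) {b D₀ : ℝ}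
    {o u₀ X Z : Pt W} {m n : Γ} (hD : D₀ ≤ R.ρ / 1000) (hu : Red R.N o u₀)
    (hm : m ∈ R.N) (hn : n ∈ R.N) (hX : Red R.N (m • o) X) (hbX : dist (m • o) X = b)
    (hZ : Red R.N (n • o) Z) (hbZ : dist (n • o) Z = b) (hmZ : b ≤ dist (m • o) Z)
    (hdX : dist u₀ X ≤ D₀) (hdZ : dist u₀ Z ≤ D₀) (hX' : b + 20 * Y.θ < dist o X)
    (hZ' : b + 20 * Y.θ < dist o Z) : dist (n • o) X ≤ b + 16 * Y.θ := by
  have hδ := Y.hδ
  have hθ := Y.hθ
  obtain ⟨A, a1, a2, a3, a4, a5⟩ := data TB Y R hρ hD hu hm hX hbX hdX hX'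
  obtain ⟨B, b1, b2, b3, b4, b5⟩ := data TB Y R hρ hD hu hn hZ hbZ hdZ hZ'
  obtain rfl := same TB Y R hρ hD a3 b3 a5 b5
  have hne := Y.Sne A
  have p1 : pd (Y.S A) u₀ X ≤ D₀ := (pd_le_dist hne u₀ X).trans hdX
  have p2 : pd (Y.S A) u₀ Z ≤ D₀ := (pd_le_dist hne u₀ Z).trans hdZ
  -- the estimate for one orientation of the coordinate
  have key : ∀ c : Pt W → ℝ, (∀ w w', |pd (Y.S A) w w' - (|c w - c w'|)| ≤ Y.θ) →
      c o ≤ c u₀ → dist (n • o) X ≤ b + 16 * Y.θ := by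
    intro c hc hcc
    have q1 := (crd_use (hc o u₀)).1 a2
    have q2 := (crd_use (hc o u₀)).2 a3
    have q3 := (crd_use (hc o (m • o))).2 a1
    have q4 := (crd_use (hc u₀ (m • o))).1 a4
    have q5 := (crd_use (hc o (n • o))).2 b1
    have q6 := (crd_use (hc u₀ (n • o))).1 b4
    have q7 := (crd_use (hc u₀ X)).1 p1
    have q8 := (crd_use (hc u₀ Z)).1 p2
    have hθ1 : 1 ≤ Y.θ := by linarith
    have g1 : |c o - c u₀| ≤ R.ρ / 2 + 7 * Y.θ := by linarith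
    have g2 : R.ρ / 2 - 58 * Y.θ - D₀ ≤ |c o - c u₀| := by linarith
    have g3 : R.ρ - 52 * Y.θ ≤ |c o - c (m • o)| := by linarith
    have g4 : |c u₀ - c (m • o)| ≤ R.ρ / 2 + D₀ + 7 * Y.θ := by linarith
    have g5 : R.ρ - 52 * Y.θ ≤ |c o - c (n • o)| := by linarith
    have g6 : |c u₀ - c (n • o)| ≤ R.ρ / 2 + D₀ + 7 * Y.θ := by linarith
    exact cmp TB Y A c hc hbX hbZ hmZ (side hθ1 hρ hD hcc g1 g2 g3 g4 q7)
      (side hθ1 hρ hD hcc g1 g2 g5 g6 q7) (side hθ1 hρ hD hcc g1 g2 g3 g4 q8)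
      (side hθ1 hρ hD hcc g1 g2 g5 g6 q8)
  rcases le_total (R.crd A o) (R.crd A u₀) with h | h
  · exact key (R.crd A) (R.crd_spec A) h
  · refine key (fun w => - R.crd A w) (fun w w' => ?_) (by simpa using h)
    have := R.crd_spec A w w'
    rwa [show - R.crd A w - - R.crd A w' = -(R.crd A w - R.crd A w') by ring, abs_neg]

end

/-- C4 -/
theorem c4 (TB : ToolB) : S_c4 := by
  intro Γ _ W 𝒜 _ Y R W' hQ hρ U b D₀ hU hUD hD
  have hδ := Y.hδ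
  have hθ := Y.hθ
  rcases U.eq_empty_or_nonempty with rfl | ⟨p, hp⟩
  · exact ⟨fun _ => pt W 1, by simp, 1, R.N.one_mem, by simp, by simp⟩
  obtain ⟨u₀, hu₀, hu₁, hu₂⟩ := exists_lift hQ p
  have hlift : ∀ x : Pt W', ∃ y : Pt W, prj W W' y = x ∧ dist u₀ y = dist p x := by
    intro x
    obtain ⟨y, hy, hd⟩ := prj_lift hQ u₀ x
    exact ⟨y, hy, by rw [hd, hu₀]⟩
  choose f hf hfd using hlift
  have hfD : ∀ x ∈ U, dist u₀ (f x) ≤ D₀ := fun x hx => by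
    rw [hfd]; exact hUD p hp x hx
  have hge : ∀ n ∈ R.N, ∀ x ∈ U, b ≤ dist (n • pt W 1) (f x) := by
    intro n hn x hx
    have := prj_le hQ (n • pt W 1) (f x)
    rw [prj_smul hn, prj_one, hf, hU x hx] at this
    exact this
  refine ⟨f, ?_, ?_⟩
  · intro x hx y hy
    obtain ⟨n, hn, hd⟩ := exists_smul hQ (f x) (f y)
    rw [hf, hf] at hd
    rcases eq_or_ne n 1 with rfl | hn1
    · rwa [one_smul] at hd
    exfalso
    obtain ⟨A, r, hr, hr1, -, hw⟩ := TB.wind Y R hn hn1 (f y)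
    have h1 := pd_le_dist (Y.Sne A) (f y) (n • f y)
    have h2 := dist_triangle4 (f y) u₀ (f x) (n • f y)
    have h3 := hfD x hx
    have h4 := hfD y hy
    have h5 := hUD x hx y hy
    rw [dist_comm (f y) u₀] at h2
    linarith
  · -- the minimal base points
    have hmin : ∀ x ∈ U, ∃ m ∈ R.N, dist (m • pt W 1) (f x) = b ∧ Red R.N (m • pt W 1) (f x) := by
      intro x hx
      obtain ⟨m, hm, hd⟩ := exists_smul hQ (f x) (pt W 1)
      rw [hf, prj_one, dist_comm x, hU x hx, dist_comm] at hd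
      refine ⟨m, hm, hd, ?_⟩
      rw [red_iff hQ, prj_smul hm, prj_one, hf, hU x hx, hd]
    by_cases hall : ∀ x ∈ U, dist (pt W 1) (f x) ≤ b + 20 * Y.θ
    · refine ⟨1, R.N.one_mem, fun x hx => ⟨?_, hge 1 R.N.one_mem x hx⟩, fun x hx => Or.inl ?_⟩
      · have := hge 1 R.N.one_mem x hx
        rwa [one_smul] at this
      · have := hall x hx
        linarith
    · push Not at hall
      obtain ⟨y, hy, hyfar⟩ := hall
      obtain ⟨n, hn, hbn, hrn⟩ := hmin y hy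
      refine ⟨n, hn, fun x hx => ⟨?_, hge n hn x hx⟩, fun x hx => ?_⟩
      · have := hge 1 R.N.one_mem x hx
        rwa [one_smul] at this
      · rcases le_or_gt (dist (pt W 1) (f x)) (b + 20 * Y.θ) with h | h
        · left; linarith
        · right
          obtain ⟨m, hm, hbm, hrm⟩ := hmin x hx
          have := main TB Y R hρ hD hu₂ hm hn hrm hbm hrn hbn (hge m hm y hy) (hfD x hx)
            (hfD y hy) h hyfar
          linarith

end Pool.Agent.H399.AN
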